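import Mathlib
import Pool.Agent.Helper228.HC.Defs
import Pool.Agent.Helper228.HC.Upper3
import Pool.Agent.Helper228.HC.Lower6

open Pool.Agent.Helper228.HC

namespace Pool.Agent.Results.MP_041491_an.OptimalConstant

/-- `C` is admissible if `C > 0` and `‖f‖₂ ≤ C^{deg f} ‖f‖₁` for every `n ≥ 1` and every real-valued
function `f` on the hypercube `{-1,1}^n` (`Cube n = Fin n → ℤˣ`), where `lpNorm p f = (E|f|^p)^{1/p}`
and `degree f` is the largest `|S|` with nonzero Fourier–Walsh coefficient (see
`Pool.Agent.Helper228.HC.Defs`). -/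
def Admissible (C : ℝ) : Prop :=
  0 < C ∧ ∀ n : ℕ, 1 ≤ n → ∀ f : Cube n → ℝ, lpNorm 2 f ≤ C ^ degree f * lpNorm 1 f

/-- The constant `C*` of the problem: the infimum of all admissible `C > 0`. -/
noncomputable def Cstar : ℝ := sInf {C : ℝ | Admissible C}

lemma mean_one_of {n : ℕ} (g : Cube n → ℝ) (h : ∀ x, g x = 1) : mean g = 1 := by
  unfold mean
  simp only [h, Finset.sum_const, Finset.card_univ, card_cube, nsmul_eq_mul, mul_one]
  push_cast
  exact div_self (by positivity)

lemma one_le_of_admissible {C : ℝ} (hC : Admissible C) : 1 ≤ C := by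
  by_contra hlt
  push Not at hlt
  obtain ⟨h0, h⟩ := hC
  let f : Cube 1 → ℝ := fun x => (((x 0 : ℤˣ) : ℤ) : ℝ)
  have habs : ∀ x : Cube 1, |f x| = 1 := by
    intro x
    rcases Int.units_eq_one_or (x 0) with h1 | h1 <;> simp [f, h1]
  have h1 : lpNorm 1 f = 1 := by
    rw [lpNorm_one]
    exact mean_one_of _ habs
  have h2 : lpNorm 2 f = 1 := by
    rw [lpNorm_two, mean_one_of, Real.sqrt_one]
    intro x
    rw [← sq_abs, habs]; norm_num
  have h3 : Pool.Agent.Helper228.HC.fourier f {0} ≠ 0 := by
    unfold Pool.Agent.Helper228.HC.fourier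
    rw [mean_one_of]
    · norm_num
    · intro x
      unfold walsh
      rw [Finset.prod_singleton]
      exact unit_mul_self (x 0)
  have h4 : 1 ≤ degree f := by
    have := card_le_degree h3
    simpa using this
  have h5 := h 1 le_rfl f
  rw [h1, h2, mul_one] at h5
  have h6 : C ^ degree f ≤ C ^ 1 := pow_le_pow_of_le_one h0.le hlt.le h4
  rw [pow_one] at h6
  linarith

/-- `C* = √3`; moreover `√3` itself is admissible. -/
theorem result : Cstar = Real.sqrt 3 ∧ IsLeast {C : ℝ | Admissible C} (Real.sqrt 3) := by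
  have hL : IsLeast {C : ℝ | Admissible C} (Real.sqrt 3) := by
    constructor
    · refine ⟨by positivity, ?_⟩
      intro n _ f
      exact upper_bound f
    · intro C hC
      exact lower_bound (one_le_of_admissible hC) hC.2
  exact ⟨hL.csInf_eq, hL⟩

end Pool.Agent.Results.MP_041491_an.OptimalConstant
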